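import Pool.Agent.Helper33.Iso.Goals2

/-!
# Injectivity on the homotopy groups of the fibre over one point (packet ISO-INJONE)
-/

set_option autoImplicit false

open Topology unitInterval
open Pool.Agent.Helper72.Orb
open Pool.Agent.Helper33.Iso

namespace Pool.Agent.Helper14.Iso

universe u v w

theorem snoc_base' {H : Type u} [Group H] {E : Type v} [TopologicalSpace E] [MulAction H E]
    {V : Type w} [TopologicalSpace V] [MulAction H V] {n : ℕ} (a : Fin n → E) (b : E)
    (y : OrbitConf H V n) (z : Punctured H y) :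
    classForget n (Quotient.mk'' ((Fin.snoc a b : Fin (n + 1) → E), y.snoc z) :
      ClassPB H E V (n + 1)) = (Quotient.mk'' (a, y) : ClassPB H E V n) := by
  change (Quotient.mk'' ((fun i : Fin n => (Fin.snoc a b : Fin (n + 1) → E) i.castSucc),
    (y.snoc z).init) : ClassPB H E V n) = Quotient.mk'' (a, y)
  congr 1
  refine Prod.ext ?_ (Subtype.ext ?_)
  · funext i
    simp
  · funext i
    change (Fin.snoc y.1 z.1 : Fin (n + 1) → V) i.castSucc = y.1 i
    simp

theorem gINJONE (hTRIVB : TRIVB.{u, v, w}) (hFREEREL : FREEREL.{w}) : INJONE.{u, v, w} := by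
  intro H _ E _ _ V _ _ _ hE hX hQ y hsm N hN l hl hfn
  obtain ⟨m, rfl⟩ : ∃ m, N = m + 1 := ⟨N - 1, by omega⟩
  obtain ⟨e0⟩ : Nonempty E := by
    have := hE.contractible
    infer_instance
  have h0 : (0 : Fin (m + 1) → I) ∈ Cube.boundary (Fin (m + 1)) := ⟨0, Or.inl rfl⟩
  set z : Punctured H y := l 0 with hz
  have hlz : ∀ x ∈ Cube.boundary (Fin (m + 1)), l x = z := fun x hx => hl x hx 0 h0
  have hnull : ((snocMap y).comp l).HomotopicRel (ContinuousMap.const _ (snocMap y z))
      (Cube.boundary (Fin (m + 1))) :=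
    hFREEREL _ (m + 1) hN ((snocMap y).comp l) (snocMap y z)
      (fun x hx => congrArg (snocMap y) (hlz x hx)) hfn
  set e : Fin 1 → E := fun _ => e0 with he
  obtain ⟨δ, h1, -, -, -⟩ := hQ y hsm z e e0
  have hbase : classForget 1 (classIncl e y
      (Quotient.mk'' (e0, z) : ClassFiber H E y)) =
      (Quotient.mk'' (e, y) : ClassPB H E V 1) := snoc_base' e e0 y z
  have triv : ∀ (p : ClassPB H E V 1), p = (Quotient.mk'' (e, y) : ClassPB H E V 1) →
      ∀ b : π_ (m + 2) (ClassPB H E V 1) p, b = 1 := by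
    rintro _ rfl b
    exact hTRIVB H E V hE hX e y m b
  have key : ∀ a : π_ (m + 1) (ClassFiber H E y) (Quotient.mk'' (e0, z)),
      piMap (m + 1) (classIncl e y) _ a = 1 → a = 1 := by
    intro a ha
    obtain ⟨b, hb⟩ := (h1 m a).1 ha
    rw [← hb, triv _ hbase b, map_one]
  let f0 : C(Fin (m + 1) → I, E × Punctured H y) :=
    ⟨fun x => (e0, l x), continuous_const.prodMk l.continuous⟩
  let A : GenLoop (Fin (m + 1)) (ClassFiber H E y) (Quotient.mk'' (e0, z)) :=
    ⟨ContinuousMap.comp ⟨Quotient.mk'', continuous_quotient_mk'⟩ f0, fun x hx => by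
      change (Quotient.mk'' (e0, l x) : ClassFiber H E y) = Quotient.mk'' (e0, z)
      rw [hlz x hx]⟩
  have hA : piMap (m + 1) (classIncl e y) (Quotient.mk'' (e0, z)) (ofLoop A) = 1 := by
    rw [piMap_ofLoop, one_eq_ofLoop, ofLoop_eq_iff]
    obtain ⟨K⟩ := hnull
    have hK := K.compContinuousMap
      (atPoint (X := V) (H := H) (Fin.snoc e e0 : Fin 2 → E))
    exact ⟨hK.cast rfl rfl⟩
  have hA1 := key _ hA
  rw [one_eq_ofLoop, ofLoop_eq_iff] at hA1
  have hcov := cover_fiber hE hX y
  have hlift : f0.HomotopicRel (ContinuousMap.const _ (e0, z))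
      (Cube.boundary (Fin (m + 1))) := by
    rw [hcov.homotopicRel_iff_comp ⟨0, h0, ?_⟩]
    · exact hA1
    · rfl
  obtain ⟨K⟩ := hlift
  refine ⟨⟨fun p => (K p).2, continuous_snd.comp K.continuous⟩, ?_, ?_, ?_⟩
  · intro x
    change (K (0, x)).2 = l x
    rw [K.apply_zero]
    rfl
  · intro t x hx x' hx'
    change (K (t, x)).2 = (K (t, x')).2
    have a1 := K.eq_fst t hx
    have a2 := K.eq_fst t hx'
    rw [a1, a2]
    exact (hlz x hx).trans (hlz x' hx').symm
  · intro x x'
    change (K (1, x)).2 = (K (1, x')).2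
    rw [K.apply_one, K.apply_one]
    rfl

end Pool.Agent.Helper14.Iso
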