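import Pool.Agent.Helper33.Iso.Goals

/-!
# Surjectivity on homotopy groups of the base (packet ISO-SURJ)
-/

set_option autoImplicit false

open Topology unitInterval
open Pool.Agent.Helper72.Orb
open Pool.Agent.Helper33.Iso

namespace Pool.Agent.Helper14.Iso

universe u v w

theorem snoc_base {H : Type u} [Group H] {E : Type v} [TopologicalSpace E] [MulAction H E]
    {V : Type w} [TopologicalSpace V] [MulAction H V] {n : ℕ} (a : Fin n → E) (b : E)
    (y : OrbitConf H V n) (z : Punctured H y) :
    classForget n (Quotient.mk'' ((Fin.snoc a b : Fin (n + 1) → E), y.snoc z) :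
      ClassPB H E V (n + 1)) = (Quotient.mk'' (a, y) : ClassPB H E V n) := by
  change (Quotient.mk'' ((fun i : Fin n => (Fin.snoc a b : Fin (n + 1) → E) i.castSucc),
    (y.snoc z).init) : ClassPB H E V n) = Quotient.mk'' (a, y)
  congr 1
  refine Prod.ext ?_ (Subtype.ext ?_)
  · funext i
    simp
  · funext i
    change (Fin.snoc y.1 z.1 : Fin (n + 1) → V) i.castSucc = y.1 i
    simp

theorem gSURJ (hLIFTBD : LIFTBD.{max v w, max v w}) : SURJ.{u, v, w} := by
  intro H _ E _ _ V _ _ _ hE hV n g hg y e e' q b
  obtain ⟨d, rfl⟩ := exists_ofLoop b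
  have hbase : classForget n (classIncl e y
      (Quotient.mk'' (e', far hV hg y) : ClassFiber H E y)) =
      (Quotient.mk'' (e, y) : ClassPB H E V n) := snoc_base e e' y (far hV hg y)
  have h0 : (0 : Fin (q + 2) → I) ∈ Cube.boundary (Fin (q + 2)) := ⟨0, Or.inl rfl⟩
  have hd0 : d.1 0 = (Quotient.mk'' (e, y) : ClassPB H E V n) := (d.2 0 h0).trans hbase
  have hcov := cover_PB (X := V) hE (continuous_act hV) n
  obtain ⟨L, hL0, hL⟩ := exists_lift_cube hcov d.1 (e, y) hd0
  have hLbd : ∀ x ∈ Cube.boundary (Fin (q + 2)), L x = (e, y) := by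
    intro x hx
    rw [← hL0]
    apply hLIFTBD _ _ _ hcov q L _ x hx
    intro x' hx'
    rw [hL, hL]
    exact (d.2 x' hx').trans (d.2 0 h0).symm
  let c0 : C(Fin (q + 2) → I, (Fin (n + 1) → E) × OrbitConf H V (n + 1)) :=
    ⟨fun x => (Fin.snoc (L x).1 e', (L x).2.snoc (far hV hg (L x).2)), by
      have hc1 : Continuous fun x => (L x).1 := continuous_fst.comp L.continuous
      have hc2 : Continuous fun x => (L x).2.1 :=
        continuous_subtype_val.comp (continuous_snd.comp L.continuous)
      apply Continuous.prodMk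
      · exact Continuous.finSnoc hc1 continuous_const
      · apply Continuous.subtype_mk
        apply Continuous.finSnoc hc2
        change Continuous fun x => (1 + ∑ j, ‖(L x).2.1 j‖) • g
        refine Continuous.smul (continuous_const.add (continuous_finsetSum _ fun j _ => ?_))
          continuous_const
        exact ((continuous_apply j).comp hc2).norm⟩
  let c : GenLoop (Fin (q + 2)) (ClassPB H E V (n + 1))
      (classIncl e y (Quotient.mk'' (e', far hV hg y) : ClassFiber H E y)) :=
    ⟨ContinuousMap.comp ⟨Quotient.mk'', continuous_quotient_mk'⟩ c0, fun x hx => by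
      change (Quotient.mk'' ((Fin.snoc (L x).1 e' : Fin (n + 1) → E),
        (L x).2.snoc (far hV hg (L x).2)) : ClassPB H E V (n + 1)) =
        Quotient.mk'' (Fin.snoc e e', y.snoc (far hV hg y))
      rw [hLbd x hx]⟩
  refine ⟨ofLoop c, ?_⟩
  rw [piMap_ofLoop]
  congr 1
  apply Subtype.ext
  apply ContinuousMap.ext
  intro x
  change classForget n (Quotient.mk'' ((Fin.snoc (L x).1 e' : Fin (n + 1) → E),
        (L x).2.snoc (far hV hg (L x).2)) : ClassPB H E V (n + 1)) = d.1 x
  rw [snoc_base, ← hL x]

end Pool.Agent.Helper14.Iso
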